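import Pool.Agent.T9h80.SR.Q4

set_option autoImplicit false

namespace Pool.Agent.T9h80.SR

open Finset Pool.Agent.T9h59.SR Pool.Agent.T9h29.NR Pool.Agent.H332R2

/-- (Q3) -/
theorem SS_le (p : ℕ) [Fact p.Prime] (K : ℕ) (hK : 2 * K + 3 ≤ p) :
    #(SS p K) ≤ #(Sums p K) + 2 := by
  classical
  have hcc : ∀ m, m ≤ K → cc p (2 * m) ≠ 0 → ¬ (p : ℤ) ∣ (_root_.bernoulli (2 * m)).num := by
    intro m hm h h'
    exact h ((cc_eq_zero_iff (p := p) (k := 2 * m) (by omega) (by omega)).2 h')
  have hsub : SS p K ⊆ Sums p K ∪ {0, 1} := by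
    intro s hs
    unfold SS at hs
    rw [mem_filter, mem_range] at hs
    obtain ⟨h1, i, h2, h3, h4⟩ := hs
    rw [mem_union]
    by_cases h5 : s ≤ 1
    · right
      rw [mem_insert, mem_singleton]
      omega
    · left
      rw [mem_Sums]
      refine ⟨⟨by omega, by omega⟩, ?_⟩
      by_cases h6 : i = 0 ∨ i = s
      · have h7 : ¬ (p : ℤ) ∣ (_root_.bernoulli (2 * s)).num := by
          rcases h6 with h6 | h6
          · rw [h6, Nat.sub_zero] at h4
            exact hcc s (by omega) h4
          · rw [h6] at h3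
            exact hcc s (by omega) h3
        have h8 := Pool.Agent.TH350.SumReg.main (p := p) s (by omega) (by omega) h7 (Rk p s)
          (by
            intro i h1 h2 h3 h4
            rw [Rk, mem_filter, mem_Ioo]
            exact ⟨⟨h1, h2⟩, h3, h4⟩)
          (by
            intro i hi
            rw [Rk, mem_filter, mem_Ioo] at hi
            exact hi.1)
        have h9 : (Rk p s).Nonempty := by
          rw [nonempty_iff_ne_empty]
          intro h10
          rw [h10, card_empty] at h8
          omega
        obtain ⟨m, hm⟩ := h9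
        rw [Rk, mem_filter, mem_Ioo] at hm
        exact ⟨m, s - m, by omega, by omega, by omega, hm.2.1, hm.2.2⟩
      · exact ⟨i, s - i, by omega, by omega, by omega, hcc i (by omega) h3,
          hcc (s - i) (by omega) h4⟩
  calc #(SS p K) ≤ #(Sums p K ∪ {0, 1}) := card_le_card hsub
    _ ≤ #(Sums p K) + #({0, 1} : Finset ℕ) := card_union_le _ _
    _ ≤ #(Sums p K) + 2 := Nat.add_le_add_left card_le_two _

end Pool.Agent.T9h80.SR
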