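import Mathlib
import Pool.Agent.T9h59.SR.Count
import Pool.Agent.T9h29.NR.Pairs
import Pool.Agent.T9h29.NR.Comb

set_option autoImplicit false

namespace Pool.Agent.T9h80.SR

open Finset Pool.Agent.T9h59.SR Pool.Agent.T9h29.NR

open Classical in
/-- the numbers `k ≤ K` which are sums of two regular indices of `p` -/
noncomputable def Sums (p K : ℕ) : Finset ℕ :=
  (Icc 1 K).filter (fun k : ℕ => ∃ i j : ℕ, 1 ≤ i ∧ 1 ≤ j ∧ i + j = k ∧
    ¬ ((p : ℤ) ∣ (_root_.bernoulli (2 * i)).num) ∧ ¬ ((p : ℤ) ∣ (_root_.bernoulli (2 * j)).num))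

theorem mem_Sums {p K k : ℕ} : k ∈ Sums p K ↔ (1 ≤ k ∧ k ≤ K) ∧ ∃ i j : ℕ, 1 ≤ i ∧ 1 ≤ j ∧
    i + j = k ∧ ¬ ((p : ℤ) ∣ (_root_.bernoulli (2 * i)).num) ∧
    ¬ ((p : ℤ) ∣ (_root_.bernoulli (2 * j)).num) := by
  classical
  unfold Sums
  rw [mem_filter, mem_Icc]

theorem step32 (a b : ℝ) (hb : 0 ≤ b) (hab : b ≤ a) (h : a ^ 2 = b ^ 2 + 1) :
    (2 / 3) * (a ^ 3) ≤ (2 / 3) * (b ^ 3) + a := by
  have ha : 0 < a := by nlinarith
  nlinarith [mul_nonneg hb (sub_nonneg.2 hab), mul_nonneg ha.le (sub_nonneg.2 hab),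
    mul_nonneg (mul_nonneg hb ha.le) (sub_nonneg.2 hab),
    mul_nonneg (sq_nonneg (a - b)) hb, mul_nonneg (sq_nonneg (a - b)) ha.le]

/-- the sum of the square roots of `m` positive integers is at least `(2 / 3) m ^ (3 / 2)` -/
theorem sum_sqrt (m : ℕ) : ∀ S : Finset ℕ, #S = m → (∀ k ∈ S, 1 ≤ k) →
    (2 / 3 : ℝ) * Real.sqrt m ^ 3 ≤ ∑ k ∈ S, Real.sqrt k := by
  induction m with
  | zero =>
    intro S hS _
    rw [card_eq_zero.1 hS]
    simp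
  | succ m ih =>
    intro S hS h1
    have hne : S.Nonempty := card_pos.1 (by omega)
    set M := S.max' hne with hM
    have hMS : M ∈ S := S.max'_mem hne
    have hMm : m + 1 ≤ M := by
      have h2 : S ⊆ Icc 1 M := fun k hk => mem_Icc.2 ⟨h1 k hk, S.le_max' k hk⟩
      have h3 := card_le_card h2
      rw [Nat.card_Icc, hS] at h3
      omega
    have h4 := ih (S.erase M) (by rw [card_erase_of_mem hMS, hS]; rfl)
      (fun k hk => h1 k (mem_of_mem_erase hk))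
    rw [← add_sum_erase S (fun k : ℕ => Real.sqrt k) hMS]
    have h5 : Real.sqrt ((m + 1 : ℕ) : ℝ) ≤ Real.sqrt M :=
      Real.sqrt_le_sqrt (by exact_mod_cast hMm)
    have h6 := step32 (Real.sqrt ((m + 1 : ℕ) : ℝ)) (Real.sqrt m) (Real.sqrt_nonneg _)
      (Real.sqrt_le_sqrt (by push_cast; linarith)) (by
        rw [Real.sq_sqrt (by positivity), Real.sq_sqrt (by positivity)]
        push_cast
        ring)
    linarith

theorem rpow32 (m : ℕ) : (m : ℝ) ^ (3 / 2 : ℝ) = Real.sqrt m ^ 3 := by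
  rw [Real.sqrt_eq_rpow, ← Real.rpow_natCast, ← Real.rpow_mul (by positivity)]
  norm_num

theorem rep_bound (r k : ℕ) (h : 4 * k ≤ 9 * (r * (r + 1))) :
    (2 / 3 : ℝ) * Real.sqrt k - 1 / 2 ≤ r := by
  have h1 : (4 : ℝ) * k ≤ 9 * (r * (r + 1)) := by exact_mod_cast h
  have h2 : Real.sqrt k ≤ (3 / 2) * (r + 1 / 2) := by
    apply Real.sqrt_le_iff.2
    constructor
    · positivity
    · nlinarith
  linarith

theorem sum_Rk (p K : ℕ) : ∑ k ∈ Sums p K, #(Rk p k) ≤ #(Reg p K) ^ 2 := by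
  classical
  rw [← card_sigma, sq, ← card_product]
  refine card_le_card_of_injOn (fun q => (q.2, q.1 - q.2)) ?_ ?_
  · rintro ⟨k, i⟩ hq
    rw [mem_coe, mem_sigma, mem_Sums] at hq
    simp only at hq
    obtain ⟨⟨⟨h1, h2⟩, -⟩, h3⟩ := hq
    rw [Rk, mem_filter, mem_Ioo] at h3
    obtain ⟨⟨h4, h5⟩, h6, h7⟩ := h3
    have h8 : i ∈ Reg p K := mem_Reg.2 ⟨⟨by omega, by omega⟩, h6⟩
    have h9 : k - i ∈ Reg p K := mem_Reg.2 ⟨⟨by omega, by omega⟩, h7⟩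
    exact mem_coe.2 (mem_product.2 ⟨h8, h9⟩)
  · rintro ⟨k, i⟩ hq ⟨k', i'⟩ hq' h
    rw [mem_coe, mem_sigma] at hq hq'
    simp only at hq hq'
    rw [Rk, mem_filter, mem_Ioo] at hq hq'
    simp only [Prod.mk.injEq] at h
    obtain ⟨h1, h2⟩ := h
    have h3 := hq.2.1
    have h4 := hq'.2.1
    have e1 : i = i' := h1
    have e2 : k = k' := by omega
    subst e1
    subst e2
    rfl

/-- (Q4) -/
theorem count_sq (p : ℕ) [Fact p.Prime] (K : ℕ) (hK : 2 * K + 3 ≤ p) :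
    (4 / 9 : ℝ) * (#(Sums p K) : ℝ) ^ (3 / 2 : ℝ) - #(Sums p K) / 2 ≤
      (#(Reg p K) : ℝ) ^ 2 := by
  have h1 : ∀ k ∈ Sums p K, (2 / 3 : ℝ) * Real.sqrt k - 1 / 2 ≤ #(Rk p k) := by
    intro k hk
    rw [mem_Sums] at hk
    obtain ⟨⟨h1, h2⟩, i, j, hi, hj, hij, h3, h4⟩ := hk
    apply rep_bound
    apply pairs k (by omega) (by omega)
    refine ⟨i, ?_⟩
    rw [Rk, mem_filter, mem_Ioo]
    refine ⟨⟨by omega, by omega⟩, h3, ?_⟩
    have : k - i = j := by omega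
    rw [this]
    exact h4
  have h2 := sum_le_sum h1
  rw [sum_sub_distrib, ← mul_sum, sum_const, nsmul_eq_mul] at h2
  have h3 := sum_sqrt _ (Sums p K) rfl (fun k hk => (mem_Sums.1 hk).1.1)
  have h4 : ((∑ k ∈ Sums p K, #(Rk p k) : ℕ) : ℝ) ≤ (#(Reg p K) : ℝ) ^ 2 := by
    exact_mod_cast sum_Rk p K
  push_cast at h4
  rw [rpow32]
  linarith

end Pool.Agent.T9h80.SR
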